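import Pool.Agent.TH116.OP.Basic

/-!
# Ordinary primes for intersection cohomology: one prime for each variety is enough
-/

universe u v

namespace Pool.Agent.Results.MP_db07cb_ag.OneOrdinaryPrime

open Pool.Agent.TH116.OP

/-- Each representation has infinitely many ordinary primes if and only if each representation has at
least one ordinary prime. -/
theorem result (T : Systems.{u, v}) :
    (∀ V, {v | T.Ordinary V v}.Infinite) ↔ ∀ V, ∃ v, T.Ordinary V v :=
  T.infinite_iff

end Pool.Agent.Results.MP_db07cb_ag.OneOrdinaryPrime
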