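import Pool.Agent.TH119.Ord.Main

/-!
# Ordinary primes for intersection cohomology in tannakian categories of motives with few slopes

`K₀` is a number field and `R ℓ'` is the `ℓ'`-adic realisation, for all primes `ℓ'`, of the intersection
cohomology `IH ^ n (X)` of a projective variety over `K₀` (or of any motive over `K₀`). The realisations
are strictly compatible: the characteristic polynomials `F v₀` of the geometric Frobenius elements are
integral and do not depend on `ℓ'`.

Over a finite extension `K` of `K₀` there are motives `A i` with multiplication by totally real or CM
fields, which satisfy the orbit condition for a common element `γ` of the Galois group of `K` (for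
`γ = 1` it holds, for instance, for elliptic curves, abelian surfaces, the second cohomology of K3
surfaces, motives of K3 type with real multiplication, motives with complex multiplication and signature
`(1, n - 1)` at one place, definite at the other places; for other `γ` also for abelian varieties of type
`GL₂` and for the motives of Hilbert modular forms). Let `A` be the direct sum of `m i` copies of the `A i`.

Over `K` the motive `R` is a direct sum of motives `R j`, and only the *adjoint motives* `R j ⊗ (R j)^∨`
are supposed to lie in the tannakian category generated by `A`: for every `j` there are a motive `C j`,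
a Tate twist and a tensor construction `T j` such that `R j ⊗ (R j)^∨ ⊕ C j (-c j) ≅ T j (A)`.
The motives `R j` themselves need not belong to this category, and need not satisfy any orbit
condition. Examples are

* the cohomology of all products of varieties as above and of their powers, of hyperkähler
  varieties whose cohomology is generated by its second cohomology, of Hilbert schemes of points of K3
  surfaces and of their quotients;
* the Kuga-Satake varieties of motives of K3 type (of arbitrarily large dimension), Mumford's abelian
  fourfolds with endomorphism ring `ℤ`, and products of all these varieties.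

Theorem. The set of the places of `K₀` at which, for all `ℓ'` and all embeddings `τ` of the field of
algebraic numbers into `ℚ̄_p`, the Newton polygon of `R ℓ'` is the Hodge polygon, has positive lower
density.

The proof. By the orbit condition and Chebotarev's density theorem (which is proved in the imported
files) `A` has equal Newton and Hodge polygons at the places with Frobenius elements like `γ`, up to
a set of density zero. So the sum of the squares of all slopes of `T j (A)` is the sum of the
squares of the Hodge slopes. The Newton polygon of `C j` lies above its Hodge polygon, so that its sum of
squares is at most the Hodge sum of squares; hence the sum of squares of the differences `s - s'` of the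
slopes of `R j` is at least the corresponding sum for the Hodge slopes. It is `2 n Σ s ^ 2 - 2 (Σ s) ^ 2`,
and `Σ s` is known. So the sum of the squares of the slopes of `R j` is as large as possible, and by
the equality case of the majorization inequality the Newton polygon of `R j` is its Hodge polygon.
-/

set_option autoImplicit false

namespace Pool.Agent.Results.MP_db07cb_ag.TannakianOrdinary

open NumberField IsDedekindDomain Polynomial
open Pool.Agent.W401.Cheb Pool.Agent.W528.Ord Pool.Agent.TH119.Ord

theorem result (K₀ K : Type) [Field K₀] [NumberField K₀] [Field K] [NumberField K] [Algebra K₀ K]
    (ℓ : ℕ) [Fact ℓ.Prime] {ι : Type} [Fintype ι]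
    -- the motives `A i` over `K`, and the Frobenius polynomials `G v` of `A`
    (A : ι → MotSystem K ℓ) (m : ι → ℕ) (χ : GK K →* (PadicAlgCl ℓ)ˣ) (S : Finset ℕ)
    (hA : ∀ i, (A i).IsMotive χ S) (hγ : ∃ γ : GK K, ∀ i, (A i).Admissible γ)
    (G : HeightOneSpectrum (𝓞 K) → ℤ[X])
    (hG : ∀ v, MultSystem.IsDeg1 S v →
      (G v).map (Int.castRingHom (AlgebraicClosure K)) = MotSystem.prodPoly A m v)
    -- the motives `R j` over `K`, whose adjoint motives are summands of tensor motives of `A`
    {J : Type} [Fintype J] (D : J → AdjointData K)
    (hD : ∀ j, (D j).IsSummand S G (MotSystem.slopes A m))
    -- the motive `R` over `K₀`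
    {r : ℕ} (R : ∀ (ℓ' : ℕ) [Fact ℓ'.Prime], GK K₀ →* Matrix.GeneralLinearGroup (Fin r) ℚ_[ℓ'])
    (F : HeightOneSpectrum (𝓞 K₀) → ℤ[X]) (hR : StrictlyCompatible S R F)
    (hF : ∀ (v₀ : HeightOneSpectrum (𝓞 K₀)) (v : HeightOneSpectrum (𝓞 K)),
      v.asIdeal.comap (algebraMap (𝓞 K₀) (𝓞 K)) = v₀.asIdeal → MultSystem.IsDeg1 S v →
      F v₀ = ∏ j, (D j).P v) :
    0 < lowerDensity (Ordinary R (∑ j, ((D j).h : Multiset ℕ))) :=
  main_all K₀ K ℓ A m χ S hA G hG D hD R F hR hF hγ

end Pool.Agent.Results.MP_db07cb_ag.TannakianOrdinary
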